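import Pool.Agent.Helper74.DR.St

/-!
Project DR (MP_26f0da_lc, helper74), module BSF: the binary system of a grammar.
-/

set_option autoImplicit false

namespace Pool.Agent.Helper81.DR

open Pool.Agent.Helper74.DR

variable {α : Type} (g : ContextFreeGrammar α)

/-- factors of right sides, and the start -/
private def Fac (s : List (Symbol α g.NT)) : Prop :=
  (∃ r ∈ g.rules, ∃ p q, r.output = p ++ (s ++ q)) ∨ s = [Symbol.nonterminal g.initial]

private theorem finite_fac : {s : List (Symbol α g.NT) | Fac g s}.Finite := by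
  have h : {s : List (Symbol α g.NT) | Fac g s} ⊆
      (⋃ r ∈ g.rules, {s | s ∈ r.output.sublists}) ∪ {[Symbol.nonterminal g.initial]} := by
    rintro s (⟨r, hr, p, q, h⟩ | h)
    · left
      rw [Set.mem_iUnion₂]
      refine ⟨r, hr, ?_⟩
      rw [Set.mem_setOf_eq, List.mem_sublists, h]
      exact (List.sublist_append_left s q).trans (List.sublist_append_right p (s ++ q))
    · right
      exact h
  refine Set.Finite.subset (Set.Finite.union ?_ (Set.finite_singleton _)) h
  exact Set.Finite.biUnion g.rules.finite_toSet fun r _ => List.finite_toSet _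

private theorem pr_nil_inv {n : ℕ} {s : List (Symbol α g.NT)} {w : List α} (h : Pr g n s w) :
    s = [] → w = [] := by
  cases h with
  | nil => exact fun _ => rfl
  | term => intro h; exact absurd h (by simp)
  | nont => intro h; exact absurd h (by simp)

private theorem pr_term_inv {n : ℕ} {s : List (Symbol α g.NT)} {w : List α} (h : Pr g n s w)
    (a : α) : s = [Symbol.terminal a] → w = [a] := by
  cases h with
  | nil => intro h; exact absurd h (by simp)
  | term b s w n h =>
    intro e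
    simp only [List.cons.injEq, Symbol.terminal.injEq] at e
    rw [pr_nil_inv g h e.2, e.1]
  | nont => intro h; exact absurd h (by simp)

private theorem pr_nont_inv {n : ℕ} {s : List (Symbol α g.NT)} {w : List α} (h : Pr g n s w)
    (X : g.NT) : s = [Symbol.nonterminal X] →
      ∃ r ∈ g.rules, r.input = X ∧ ∃ k, Pr g k r.output w := by
  cases h with
  | nil => intro h; exact absurd h (by simp)
  | term => intro h; exact absurd h (by simp)
  | nont r s u v n m hr h1 h2 =>
    intro e
    simp only [List.cons.injEq, Symbol.nonterminal.injEq] at e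
    have hv := pr_nil_inv g h2 e.2
    refine ⟨r, hr, e.1, n, ?_⟩
    rw [hv, List.append_nil]
    exact h1

private theorem split {n : ℕ} {s : List (Symbol α g.NT)} {w : List α} (h : Pr g n s w) :
    Fac g s → 2 ≤ w.length → ∃ Y Z, Fac g Y ∧ Fac g Z ∧ ∃ u v, w = u ++ v ∧ u ≠ [] ∧ v ≠ [] ∧
      (∃ k, Pr g k Y u) ∧ (∃ k, Pr g k Z v) ∧ ∀ u' v', (∃ k, Pr g k Y u') →
        (∃ k, Pr g k Z v') → ∃ k, Pr g k s (u' ++ v') := by
  induction h with
  | nil =>
    intro _ h
    simp at h
  | term a s w n h ih =>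
    intro hF hw
    have hw' : w ≠ [] := by
      rintro rfl
      simp at hw
    rcases hF with ⟨r, hr, p, q, he⟩ | he
    swap
    · simp at he
    refine ⟨[Symbol.terminal a], s, Or.inl ⟨r, hr, p, s ++ q, by rw [he]; simp⟩,
      Or.inl ⟨r, hr, p ++ [Symbol.terminal a], q, by rw [he]; simp⟩, [a], w, by simp, by simp, hw',
      ⟨1, Pr.term a [] [] 0 Pr.nil⟩, ⟨n, h⟩, ?_⟩
    rintro u' v' ⟨k, hk⟩ ⟨k', hk'⟩
    rw [pr_term_inv g hk a rfl]
    exact ⟨k' + 1, Pr.term a s v' k' hk'⟩
  | nont r s u v n m hr h1 h2 ih1 ih2 =>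
    intro hF hw
    by_cases hu : u = []
    · subst hu
      have hv2 : 2 ≤ v.length := by simpa using hw
      have hs : s ≠ [] := by
        intro e
        rw [pr_nil_inv g h2 e] at hv2
        simp at hv2
      have hFs : Fac g s := by
        rcases hF with ⟨r', hr', p, q, he⟩ | he
        · exact Or.inl ⟨r', hr', p ++ [Symbol.nonterminal r.input], q, by rw [he]; simp⟩
        · simp only [List.cons.injEq] at he
          exact absurd he.2 hs
      obtain ⟨Y, Z, hY, hZ, u1, v1, e, hu1, hv1, hYu, hZv, hall⟩ := ih2 hFs hv2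
      refine ⟨Y, Z, hY, hZ, u1, v1, by simpa using e, hu1, hv1, hYu, hZv, ?_⟩
      intro u' v' hu' hv'
      obtain ⟨k, hk⟩ := hall u' v' hu' hv'
      exact ⟨n + k + 1, Pr.nont r s [] (u' ++ v') n k hr h1 hk⟩
    · by_cases hv : v = []
      · subst hv
        have hu2 : 2 ≤ u.length := by simpa using hw
        obtain ⟨Y, Z, hY, hZ, u1, v1, e, hu1, hv1, hYu, hZv, hall⟩ :=
          ih1 (Or.inl ⟨r, hr, [], [], by simp⟩) hu2
        refine ⟨Y, Z, hY, hZ, u1, v1, by simpa using e, hu1, hv1, hYu, hZv, ?_⟩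
        intro u' v' hu' hv'
        obtain ⟨k, hk⟩ := hall u' v' hu' hv'
        have := Pr.nont r s (u' ++ v') [] k m hr hk h2
        rw [List.append_nil] at this
        exact ⟨k + m + 1, this⟩
      · have hs : s ≠ [] := by
          intro e
          exact hv (pr_nil_inv g h2 e)
        rcases hF with ⟨r', hr', p, q, he⟩ | he
        swap
        · simp only [List.cons.injEq] at he
          exact absurd he.2 hs
        have hNu := Pr.nont r [] u [] n 0 hr h1 Pr.nil
        rw [List.append_nil] at hNu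
        refine ⟨[Symbol.nonterminal r.input], s, Or.inl ⟨r', hr', p, s ++ q, by rw [he]; simp⟩,
          Or.inl ⟨r', hr', p ++ [Symbol.nonterminal r.input], q, by rw [he]; simp⟩, u, v, rfl, hu,
          hv, ⟨_, hNu⟩, ⟨m, h2⟩, ?_⟩
        rintro u' v' ⟨k, hk⟩ ⟨k', hk'⟩
        obtain ⟨r1, hr1, hX, k1, hk1⟩ := pr_nont_inv g hk r.input rfl
        have := Pr.nont r1 s u' v' k1 k' hr1 hk1 hk'
        rw [hX] at this
        exact ⟨_, this⟩

theorem hBSF (hPRS : StPRS) : StBSF := by
  intro α g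
  refine ⟨{s : List (Symbol α g.NT) // Fac g s}, (finite_fac g).to_subtype,
    fun s => {w | w ≠ [] ∧ ∃ n, Pr g n s.1 w}, ⟨[Symbol.nonterminal g.initial], Or.inr rfl⟩,
    ⟨fun X h => h.1 rfl, ?_⟩, ?_⟩
  · rintro ⟨s, hs⟩ w ⟨hw, n, hn⟩ hw2
    obtain ⟨Y, Z, hY, hZ, u, v, e, hu, hv, hYu, hZv, hall⟩ := split g hn hs hw2
    refine ⟨⟨Y, hY⟩, ⟨Z, hZ⟩, u, v, e, ⟨hu, hYu⟩, ⟨hv, hZv⟩, ?_⟩
    rintro u' ⟨hu', hYu'⟩ v' ⟨hv', hZv'⟩
    exact ⟨by simp [hu'], hall u' v' hYu' hZv'⟩
  · intro w hw
    have h1 : w ∈ g.language ↔ g.Derives [Symbol.nonterminal g.initial] (w.map Symbol.terminal) :=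
      Iff.rfl
    rw [h1, hPRS]
    exact ⟨fun h => ⟨hw, h⟩, fun h => h.2⟩

end Pool.Agent.Helper81.DR
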